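import Pool.Agent.U469.EW.Stm

/-!
Project EW, part REG: the interactions which are not contained in a window.
-/

set_option autoImplicit false

open MeasureTheory Set Filter Topology
open scoped ENNReal

namespace Pool.Agent.U535.EW.REG

open Pool.Agent.U469.EW

lemma mem_box {N : ℕ} {k : Wv} : k ∈ box N ↔ ∀ i, |k i| ≤ (N : ℤ) := by
  simp [box, Fintype.mem_piFinset, abs_le]

lemma box_mono {A B : ℕ} (h : A ≤ B) {k : Wv} (hk : k ∈ box A) : k ∈ box B := by
  rw [mem_box] at *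
  intro i
  have h' : (A : ℤ) ≤ B := by exact_mod_cast h
  linarith [hk i]

lemma box_add {A B C : ℕ} (h : A + B ≤ C) {k l : Wv} (hk : k ∈ box A) (hl : l ∈ box B) :
    k + l ∈ box C := by
  rw [mem_box] at *
  intro i
  have h' : (A : ℤ) + B ≤ C := by exact_mod_cast h
  have h2 : |k i + l i| ≤ |k i| + |l i| := abs_add_le (k i) (l i)
  simp only [Pi.add_apply]
  linarith [hk i, hl i]

lemma box_sub {A B C : ℕ} (h : A + B ≤ C) {k l : Wv} (hk : k ∈ box A) (hl : l ∈ box B) :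
    k - l ∈ box C := by
  rw [sub_eq_add_neg]
  apply box_add h hk
  rw [mem_box] at *
  intro i
  simp only [Pi.neg_apply, abs_neg]
  exact hl i

lemma nsq_nn (k : Wv) : 0 ≤ nsq k := Finset.sum_nonneg fun i _ => sq_nonneg _

lemma sq_nn (a : Fld) (k : Wv) : 0 ≤ sq a k := Finset.sum_nonneg fun i _ => sq_nonneg _

lemma nsq_ge {R : ℕ} {k : Wv} (hk : k ∉ box R) : ((R : ℝ) + 1) ^ 2 ≤ nsq k := by
  rw [mem_box] at hk
  push Not at hk
  obtain ⟨i, hi⟩ := hk
  have h1 : ((R : ℝ) + 1) ^ 2 ≤ (k i : ℝ) ^ 2 := by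
    have h2 : ((R : ℤ) + 1) ≤ |k i| := hi
    have h3 : ((R : ℝ) + 1) ≤ |(k i : ℝ)| := by exact_mod_cast h2
    rw [← sq_abs (k i : ℝ)]
    gcongr
  exact h1.trans (Finset.single_le_sum (f := fun i => (k i : ℝ) ^ 2) (fun i _ => sq_nonneg _)
    (Finset.mem_univ i))

lemma nsq_le {N : ℕ} {k : Wv} (hk : k ∈ box (2 * N)) : √(nsq k) ≤ 4 * N := by
  rw [mem_box] at hk
  refine Real.sqrt_le_iff.2 ⟨by positivity, ?_⟩
  have h1 : ∀ i, (k i : ℝ) ^ 2 ≤ 4 * (N : ℝ) ^ 2 := by
    intro i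
    have h2 : |(k i : ℝ)| ≤ 2 * (N : ℝ) := by exact_mod_cast hk i
    rw [← sq_abs (k i : ℝ)]
    calc |(k i : ℝ)| ^ 2 ≤ (2 * (N : ℝ)) ^ 2 := by gcongr
      _ = _ := by ring
  unfold nsq
  rw [Fin.sum_univ_three]
  nlinarith [h1 0, h1 1, h1 2, sq_nonneg (N : ℝ)]

noncomputable def q (a : Fld) (R : ℕ) (k : Wv) : ℝ := if k ∈ box R then 0 else √(sq a k)

lemma q_nn (a : Fld) (R : ℕ) (k : Wv) : 0 ≤ q a R k := by
  unfold q
  split_ifs
  · exact le_rfl
  · exact Real.sqrt_nonneg _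

lemma q_sq (a : Fld) (R : ℕ) (k : Wv) : q a R k ^ 2 = if k ∈ box R then 0 else sq a k := by
  unfold q
  split_ifs
  · simp
  · exact Real.sq_sqrt (sq_nn a k)

lemma q_out {a : Fld} {R : ℕ} {k : Wv} (hk : k ∉ box R) : q a R k = √(sq a k) := by
  unfold q
  rw [if_neg hk]

noncomputable def h (a : Fld) (L R : ℕ) (l j k : Wv) : ℝ≥0∞ :=
  if l ∈ box L then ENNReal.ofReal (√(nsq l) * √(sq a l)) * ENNReal.ofReal (q a R j * q a R k)
  else 0

lemma tsum_h (a : Fld) (L R : ℕ) (σ : Wv → Wv → Wv) :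
    ∑' z : Wv × Wv, h a L R z.1 z.2 (σ z.1 z.2) =
      ∑ l ∈ box L, ENNReal.ofReal (√(nsq l) * √(sq a l)) *
        ∑' j, ENNReal.ofReal (q a R j * q a R (σ l j)) := by
  rw [ENNReal.tsum_prod (f := fun l j => h a L R l j (σ l j))]
  rw [tsum_eq_sum (s := box L)]
  · apply Finset.sum_congr rfl
    intro l hl
    simp only [h, if_pos hl]
    rw [ENNReal.tsum_mul_left]
  · intro l hl
    simp [h, hl]

lemma q_summable {a : Fld} (ha : Good a) (R : ℕ) : Summable fun k => q a R k ^ 2 := by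
  refine Summable.of_nonneg_of_le (fun k => sq_nonneg _) (fun k => ?_) ha.s0
  rw [q_sq]
  split_ifs
  · exact sq_nn a k
  · exact le_rfl

lemma tail_summable {a : Fld} (ha : Good a) (A : ℕ) :
    Summable fun k => if k ∈ box A then 0 else nsq k * sq a k := by
  refine Summable.of_nonneg_of_le (fun k => ?_) (fun k => ?_) ha.s1
  · split_ifs
    · exact le_rfl
    · exact mul_nonneg (nsq_nn k) (sq_nn a k)
  · split_ifs
    · exact mul_nonneg (nsq_nn k) (sq_nn a k)
    · exact le_rfl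

lemma tail_nn {a : Fld} (A : ℕ) : 0 ≤ tail A a := by
  unfold tail
  apply tsum_nonneg
  intro k
  split_ifs
  · exact le_rfl
  · exact mul_nonneg (nsq_nn k) (sq_nn a k)

lemma q_tail {a : Fld} (ha : Good a) {A R : ℕ} (hR : A ≤ R) :
    ∑' k, q a R k ^ 2 ≤ tail A a / ((R : ℝ) + 1) ^ 2 := by
  rw [le_div_iff₀ (by positivity), ← tsum_mul_right]
  unfold tail
  refine Summable.tsum_le_tsum (fun k => ?_) ((q_summable ha R).mul_right _) (tail_summable ha A)
  rw [q_sq]
  by_cases hk : k ∈ box R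
  · rw [if_pos hk, zero_mul]
    split_ifs
    · exact le_rfl
    · exact mul_nonneg (nsq_nn k) (sq_nn a k)
  · rw [if_neg hk, if_neg (fun h => hk (box_mono hR h)), mul_comm]
    exact mul_le_mul_of_nonneg_right (nsq_ge hk) (sq_nn a k)

lemma cnt (hN : S_CNT) (L : ℕ) : √(∑ k ∈ box L, nsq k) ≤ 9 * (L : ℝ) ^ (5 / 2 : ℝ) := by
  rcases Nat.eq_zero_or_pos L with rfl | hL
  · have h0 : ∑ k ∈ box 0, nsq k = 0 := by
      apply Finset.sum_eq_zero
      intro k hk
      rw [mem_box] at hk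
      unfold nsq
      apply Finset.sum_eq_zero
      intro i _
      have h1 : |k i| ≤ 0 := by simpa using hk i
      have h2 : k i = 0 := by simpa using h1
      simp [h2]
    rw [h0]
    simp
  · refine Real.sqrt_le_iff.2 ⟨by positivity, ?_⟩
    have h1 : (9 * (L : ℝ) ^ (5 / 2 : ℝ)) ^ 2 = 81 * (L : ℝ) ^ 5 := by
      rw [mul_pow, ← Real.rpow_natCast ((L : ℝ) ^ (5 / 2 : ℝ)) 2, ← Real.rpow_mul (by positivity)]
      norm_num
    rw [h1]
    exact hN L hL

lemma K (hT : S_TRI) (hN : S_CNT) {a : Fld} (ha : Good a) {A : ℕ} (L : ℕ) {R : ℕ} (hR : A ≤ R)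
    (σ : Wv → Wv → Wv) (hσ : ∀ l, Function.Injective (σ l)) :
    ∑' z : Wv × Wv, h a L R z.1 z.2 (σ z.1 z.2) ≤
      ENNReal.ofReal (9 * (L : ℝ) ^ (5 / 2 : ℝ) * √(∑' k, sq a k) *
        (tail A a / ((R : ℝ) + 1) ^ 2)) := by
  rw [tsum_h]
  have hp : (fun k => √(Pool.Agent.U469.EW.sq a k) ^ 2) = Pool.Agent.U469.EW.sq a := by
    funext k
    exact Real.sq_sqrt (sq_nn a k)
  have hw : (fun k : Wv => √(nsq k) ^ 2) = nsq := by
    funext k
    exact Real.sq_sqrt (nsq_nn k)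
  refine (hT (box L) (fun k => √(nsq k)) (fun k => √(sq a k)) (q a R) (q a R)
    (fun _ => Real.sqrt_nonneg _) (fun _ => Real.sqrt_nonneg _) (q_nn a R) (q_nn a R)
    (by rw [hp]; exact ha.s0) (q_summable ha R) (q_summable ha R) σ hσ).trans ?_
  apply ENNReal.ofReal_le_ofReal
  have h1 : ∑ l ∈ box L, √(nsq l) ^ 2 = ∑ l ∈ box L, nsq l :=
    Finset.sum_congr rfl fun k _ => Real.sq_sqrt (nsq_nn k)
  have h2 : ∑' k, √(sq a k) ^ 2 = ∑' k, sq a k := tsum_congr fun k => Real.sq_sqrt (sq_nn a k)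
  have h3 : √(∑' k, q a R k ^ 2) * √(∑' k, q a R k ^ 2) = ∑' k, q a R k ^ 2 :=
    Real.mul_self_sqrt (tsum_nonneg fun k => sq_nonneg _)
  show √(∑ l ∈ box L, √(nsq l) ^ 2) * √(∑' k, √(sq a k) ^ 2) *
    (√(∑' k, q a R k ^ 2) * √(∑' k, q a R k ^ 2)) ≤ _
  rw [h1, h2, h3]
  have h4 := q_tail ha hR
  have h5 := cnt hN L
  have h6 : 0 ≤ ∑' k, q a R k ^ 2 := tsum_nonneg fun k => sq_nonneg _
  gcongr

lemma X_le1 (hS : S_SYM) {a : Fld} (ha : Good a) (j k : Wv) :
    ‖X a j k‖ ≤ √(nsq k) * √(sq a j) * (√(sq a (k - j)) * √(sq a k)) := (hS a ha).2.2.2.1 j k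

lemma X_le2 (hS : S_SYM) {a : Fld} (ha : Good a) (j k : Wv) :
    ‖X a j k‖ ≤ √(nsq (k - j)) * √(sq a j) * (√(sq a (k - j)) * √(sq a k)) :=
  (hS a ha).2.2.2.2 j k

/-- the value of `h` for frequencies in the right places -/
lemma h_val {a : Fld} {L R : ℕ} {l j k : Wv} (hl : l ∈ box L) (hj : j ∉ box R) (hk : k ∉ box R) :
    h a L R l j k = ENNReal.ofReal (√(nsq l) * √(sq a l) * (√(sq a j) * √(sq a k))) := by
  unfold h
  rw [if_pos hl, q_out hj, q_out hk, ← ENNReal.ofReal_mul (by positivity)]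

lemma pt (hS : S_SYM) (hC : S_CUT) {a : Fld} (ha : Good a) {A N M : ℕ} (h1 : 1 ≤ N)
    (h2 : 2 * A ≤ N) (h3 : 4 * N ≤ M) (j k : Wv) :
    (if j ∈ win A M ∧ k ∈ win A M ∧ k - j ∈ win A M then 0 else
      ENNReal.ofReal (|cut N k - cut N (k - j)| * ‖X a j k‖)) ≤
    4 * h a A (N - A) j k (k - j) + h a A (N - A) (k - j) j k + h a A (N - A) k j (k - j)
      + h a (2 * N) (M - 2 * N) k j (k - j) + h a (2 * N) (M - 2 * N) (k - j) j k := by
  by_cases hw : j ∈ win A M ∧ k ∈ win A M ∧ k - j ∈ win A M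
  · rw [if_pos hw]; exact zero_le
  rw [if_neg hw]
  obtain ⟨c01, -, cin, cout, clip⟩ := hC N h1
  have hd1 : |cut N k - cut N (k - j)| ≤ 1 := by
    rw [abs_le]
    constructor <;> linarith [(c01 k).1, (c01 k).2, (c01 (k - j)).1, (c01 (k - j)).2]
  by_cases hb : k ∈ box N ∧ k - j ∈ box N
  · rw [cin k hb.1, cin _ hb.2]; simp
  by_cases hc : k ∉ box (2 * N) ∧ k - j ∉ box (2 * N)
  · rw [cout k hc.1, cout _ hc.2]; simp
  -- bound of the difference times X by X
  have hX : |cut N k - cut N (k - j)| * ‖X a j k‖ ≤ ‖X a j k‖ := by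
    have := mul_le_mul_of_nonneg_right hd1 (norm_nonneg (X a j k))
    linarith
  by_cases hj : j ∈ box A
  · -- first term
    have hk' : k ∉ box (N - A) := by
      intro hk
      apply hb
      exact ⟨box_mono (by omega) hk, box_sub (by omega) hk hj⟩
    have hl' : k - j ∉ box (N - A) := by
      intro hl
      apply hb
      refine ⟨?_, box_mono (by omega) hl⟩
      have := box_add (C := N) (by omega) hl hj
      simpa using this
    have key : |cut N k - cut N (k - j)| * ‖X a j k‖ ≤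
        4 * (√(nsq j) * √(sq a j) * (√(sq a k) * √(sq a (k - j)))) := by
      have hN0 : (0 : ℝ) < N := by exact_mod_cast h1
      have hx : ‖X a j k‖ ≤ 4 * N * √(sq a j) * (√(sq a (k - j)) * √(sq a k)) := by
        by_cases hk2 : k ∈ box (2 * N)
        · refine (X_le1 hS ha j k).trans ?_
          have := nsq_le hk2
          gcongr
        · have hl2 : k - j ∈ box (2 * N) := by
            by_contra hl2
            exact hc ⟨hk2, hl2⟩
          refine (X_le2 hS ha j k).trans ?_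
          have := nsq_le hl2
          gcongr
      calc |cut N k - cut N (k - j)| * ‖X a j k‖
          ≤ (√(nsq j) / N) * (4 * N * √(sq a j) * (√(sq a (k - j)) * √(sq a k))) := by
            apply mul_le_mul (clip k j) hx (norm_nonneg _) (by positivity)
        _ = _ := by field_simp
    have e : 4 * h a A (N - A) j k (k - j) =
        ENNReal.ofReal (4 * (√(nsq j) * √(sq a j) * (√(sq a k) * √(sq a (k - j))))) := by
      rw [h_val hj hk' hl', ENNReal.ofReal_mul (by norm_num : (0 : ℝ) ≤ 4)]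
      norm_num
    refine le_trans ?_ (le_add_right (le_add_right (le_add_right (le_add_right (le_refl _)))))
    rw [e]
    exact ENNReal.ofReal_le_ofReal key
  by_cases hl : k - j ∈ box A
  · -- second term
    have hk' : k ∉ box N := fun hk => hb ⟨hk, box_mono (by omega) hl⟩
    have hj' : j ∉ box (N - A) := by
      intro hj
      apply hk'
      have := box_add (C := N) (by omega) hl hj
      simpa using this
    refine le_trans ?_ (le_add_right (le_add_right (le_add_right (le_add_left (le_refl _)))))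
    rw [h_val hl hj' (fun hk => hk' (box_mono (by omega) hk))]
    apply ENNReal.ofReal_le_ofReal
    refine hX.trans ((X_le2 hS ha j k).trans (le_of_eq ?_))
    ring
  by_cases hk : k ∈ box A
  · -- third term
    have hl' : k - j ∉ box N := fun hl => hb ⟨box_mono (by omega) hk, hl⟩
    have hj' : j ∉ box (N - A) := by
      intro hj
      apply hl'
      exact box_sub (by omega) hk hj
    refine le_trans ?_ (le_add_right (le_add_right (le_add_left (le_refl _))))
    rw [h_val hk hj' (fun hk => hl' (box_mono (by omega) hk))]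
    apply ENNReal.ofReal_le_ofReal
    refine hX.trans ((X_le1 hS ha j k).trans (le_of_eq ?_))
    ring
  -- no frequency in `box A`: one of them is outside of `box M`
  have hM : ¬ (j ∈ box M ∧ k ∈ box M ∧ k - j ∈ box M) := by
    rintro ⟨m1, m2, m3⟩
    apply hw
    simp only [win, Finset.mem_sdiff]
    exact ⟨⟨m1, hj⟩, ⟨m2, hk⟩, ⟨m3, hl⟩⟩
  by_cases hk2 : k ∈ box (2 * N)
  · -- fourth term
    have hkM : k ∈ box M := box_mono (by omega) hk2
    have hj' : j ∉ box (M - 2 * N) := by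
      intro hj1
      exact hM ⟨box_mono (by omega) hj1, hkM, box_sub (by omega) hk2 hj1⟩
    have hl' : k - j ∉ box (M - 2 * N) := by
      intro hl1
      have := box_sub (C := M) (by omega) hk2 hl1
      rw [sub_sub_cancel] at this
      exact hM ⟨this, hkM, box_mono (by omega) hl1⟩
    refine le_trans ?_ (le_add_right (le_add_left (le_refl _)))
    rw [h_val hk2 hj' hl']
    apply ENNReal.ofReal_le_ofReal
    refine hX.trans ((X_le1 hS ha j k).trans (le_of_eq ?_))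
    ring
  · -- fifth term
    have hl2 : k - j ∈ box (2 * N) := by
      by_contra hl2
      exact hc ⟨hk2, hl2⟩
    have hlM : k - j ∈ box M := box_mono (by omega) hl2
    have hj' : j ∉ box (M - 2 * N) := by
      intro hj1
      have := box_add (C := M) (by omega) hl2 hj1
      rw [sub_add_cancel] at this
      exact hM ⟨box_mono (by omega) hj1, this, hlM⟩
    have hk' : k ∉ box (M - 2 * N) := by
      intro hk1
      have := box_sub (C := M) (by omega) hk1 hl2
      rw [sub_sub_cancel] at this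
      exact hM ⟨this, box_mono (by omega) hk1, hlM⟩
    refine le_trans ?_ (le_add_left (le_refl _))
    rw [h_val hl2 hj' hk']
    apply ENNReal.ofReal_le_ofReal
    refine hX.trans ((X_le2 hS ha j k).trans (le_of_eq ?_))
    ring

lemma sumA (hT : S_TRI) (hN : S_CNT) {a : Fld} (ha : Good a) {A : ℕ} (L : ℕ) {R : ℕ}
    (hR : A ≤ R) : ∑' z : Wv × Wv, h a L R z.1 z.2 (z.2 - z.1) ≤
      ENNReal.ofReal (9 * (L : ℝ) ^ (5 / 2 : ℝ) * √(∑' k, sq a k) *
        (tail A a / ((R : ℝ) + 1) ^ 2)) :=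
  K hT hN ha L hR (fun l j => j - l) fun l => sub_left_injective

lemma sumB (hT : S_TRI) (hN : S_CNT) {a : Fld} (ha : Good a) {A : ℕ} (L : ℕ) {R : ℕ}
    (hR : A ≤ R) : ∑' z : Wv × Wv, h a L R z.2 z.1 (z.2 - z.1) ≤
      ENNReal.ofReal (9 * (L : ℝ) ^ (5 / 2 : ℝ) * √(∑' k, sq a k) *
        (tail A a / ((R : ℝ) + 1) ^ 2)) := by
  rw [← Equiv.tsum_eq (Equiv.prodComm Wv Wv)]
  exact K hT hN ha L hR (fun l j => l - j) fun l => sub_right_injective

def eqv : Wv × Wv ≃ Wv × Wv where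
  toFun z := (z.2, z.1 + z.2)
  invFun z := (z.2 - z.1, z.1)
  left_inv z := by ext <;> simp
  right_inv z := by ext <;> simp

lemma sumC (hT : S_TRI) (hN : S_CNT) {a : Fld} (ha : Good a) {A : ℕ} (L : ℕ) {R : ℕ}
    (hR : A ≤ R) : ∑' z : Wv × Wv, h a L R (z.2 - z.1) z.1 z.2 ≤
      ENNReal.ofReal (9 * (L : ℝ) ^ (5 / 2 : ℝ) * √(∑' k, sq a k) *
        (tail A a / ((R : ℝ) + 1) ^ 2)) := by
  rw [← Equiv.tsum_eq eqv]
  have : ∀ z : Wv × Wv, h a L R ((eqv z).2 - (eqv z).1) (eqv z).1 (eqv z).2 =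
      h a L R z.1 z.2 (z.1 + z.2) := by
    intro z
    simp [eqv]
  rw [tsum_congr this]
  exact K hT hN ha L hR (fun l j => l + j) fun l => add_right_injective l

lemma fin1 (T S x : ℝ) (hT : 0 ≤ T) (hS : 0 ≤ S) (hx : 0 ≤ x) {A N : ℕ} (h1 : 1 ≤ N)
    (h2 : 2 * A ≤ N) :
    9 * x * S * (T / (((N - A : ℕ) : ℝ) + 1) ^ 2) ≤ 36 * (x / (N : ℝ) ^ 2 * S * T) := by
  have hN0 : (0 : ℝ) < N := by exact_mod_cast h1
  have d1 : T / (((N - A : ℕ) : ℝ) + 1) ^ 2 ≤ 4 * (T / (N : ℝ) ^ 2) := by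
    have hh : (N : ℝ) / 2 ≤ ((N - A : ℕ) : ℝ) + 1 := by
      rw [Nat.cast_sub (by omega)]
      have : (2 : ℝ) * A ≤ N := by exact_mod_cast h2
      linarith
    calc T / (((N - A : ℕ) : ℝ) + 1) ^ 2 ≤ T / ((N : ℝ) / 2) ^ 2 := by gcongr
      _ = _ := by
        field_simp
        norm_num
  calc _ ≤ 9 * x * S * (4 * (T / (N : ℝ) ^ 2)) := by gcongr
    _ = _ := by ring

lemma fin2 (N : ℕ) : (((2 * N : ℕ) : ℝ)) ^ (5 / 2 : ℝ) ≤ 8 * (N : ℝ) ^ (5 / 2 : ℝ) := by
  push_cast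
  rw [Real.mul_rpow (by norm_num) (Nat.cast_nonneg N)]
  have : (2 : ℝ) ^ (5 / 2 : ℝ) ≤ 8 := by
    calc (2 : ℝ) ^ (5 / 2 : ℝ) ≤ (2 : ℝ) ^ (3 : ℝ) :=
          Real.rpow_le_rpow_of_exponent_le (by norm_num) (by norm_num)
      _ = 8 := by norm_num
  gcongr

lemma fin3 (x y : ℝ) (hx : 0 ≤ x) (hy : 0 ≤ y) (e1 e2 e3 e4 e5 : ℝ≥0∞)
    (h1 : e1 ≤ ENNReal.ofReal (36 * x)) (h2 : e2 ≤ ENNReal.ofReal (36 * x))
    (h3 : e3 ≤ ENNReal.ofReal (36 * x)) (h4 : e4 ≤ ENNReal.ofReal (288 * y))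
    (h5 : e5 ≤ ENNReal.ofReal (288 * y)) :
    4 * e1 + e2 + e3 + e4 + e5 ≤ ENNReal.ofReal (1000 * x + 1000 * y) := by
  have k1 : 4 * e1 ≤ ENNReal.ofReal (144 * x) := by
    calc 4 * e1 ≤ 4 * ENNReal.ofReal (36 * x) := by gcongr
      _ = ENNReal.ofReal 4 * ENNReal.ofReal (36 * x) := by norm_num
      _ = ENNReal.ofReal (144 * x) := by
        rw [← ENNReal.ofReal_mul (by norm_num)]
        congr 1
        ring
  calc 4 * e1 + e2 + e3 + e4 + e5 ≤ ENNReal.ofReal (144 * x) + ENNReal.ofReal (36 * x)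
        + ENNReal.ofReal (36 * x) + ENNReal.ofReal (288 * y) + ENNReal.ofReal (288 * y) := by
        gcongr
    _ = ENNReal.ofReal (144 * x + 36 * x + 36 * x + 288 * y + 288 * y) := by
        rw [ENNReal.ofReal_add (by positivity) (by positivity),
          ENNReal.ofReal_add (by positivity) (by positivity),
          ENNReal.ofReal_add (by positivity) (by positivity),
          ENNReal.ofReal_add (by positivity) (by positivity)]
    _ ≤ _ := by
        apply ENNReal.ofReal_le_ofReal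
        linarith

end Pool.Agent.U535.EW.REG
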