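import Pool.Agent.U535.EW.REGa

/-!
Project EW, part REG: the interactions which are not contained in a window.
-/

set_option autoImplicit false

open MeasureTheory Set Filter Topology
open scoped ENNReal

namespace Pool.Agent.U535.EW.REG

open Pool.Agent.U469.EW

theorem t_REG (hS : S_SYM) (hT : S_TRI) (hN : S_CNT) (hC : S_CUT) : S_REG := by
  refine ⟨1000, by norm_num, ?_⟩
  intro a ha A N M h1 h2 h3
  have key : ∀ z : Wv × Wv, (if z.1 ∈ win A M ∧ z.2 ∈ win A M ∧ z.2 - z.1 ∈ win A M then 0 else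
      ENNReal.ofReal (|cut N z.2 - cut N (z.2 - z.1)| * ‖X a z.1 z.2‖)) ≤
    4 * h a A (N - A) z.1 z.2 (z.2 - z.1) + h a A (N - A) (z.2 - z.1) z.1 z.2 +
      h a A (N - A) z.2 z.1 (z.2 - z.1)
      + h a (2 * N) (M - 2 * N) z.2 z.1 (z.2 - z.1) + h a (2 * N) (M - 2 * N) (z.2 - z.1) z.1 z.2 :=
    fun z => pt hS hC ha h1 h2 h3 z.1 z.2
  refine (ENNReal.tsum_le_tsum key).trans ?_
  rw [ENNReal.tsum_add, ENNReal.tsum_add, ENNReal.tsum_add, ENNReal.tsum_add, ENNReal.tsum_mul_left]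
  have hRA : A ≤ N - A := by omega
  have hRM : A ≤ M - 2 * N := by omega
  have ht : 0 ≤ tail A a := tail_nn A
  have hs : 0 ≤ √(∑' k, sq a k) := Real.sqrt_nonneg _
  have f1 := fin1 (tail A a) (√(∑' k, sq a k)) ((A : ℝ) ^ (5 / 2 : ℝ)) ht hs (by positivity) h1 h2
  have f2 : 9 * (((2 * N : ℕ) : ℝ)) ^ (5 / 2 : ℝ) * √(∑' k, sq a k) *
      (tail A a / (((M - 2 * N : ℕ) : ℝ) + 1) ^ 2) ≤
      288 * ((N : ℝ) ^ (5 / 2 : ℝ) / (M : ℝ) ^ 2 * √(∑' k, sq a k) * tail A a) := by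
    have f3 := fin1 (tail A a) (√(∑' k, sq a k)) ((((2 * N : ℕ) : ℝ)) ^ (5 / 2 : ℝ)) ht hs
      (by positivity) (A := 2 * N) (N := M) (by omega) (by omega)
    refine f3.trans ?_
    have f4 := fin2 N
    calc _ ≤ 36 * (8 * (N : ℝ) ^ (5 / 2 : ℝ) / (M : ℝ) ^ 2 * √(∑' k, sq a k) * tail A a) := by
          gcongr
      _ = _ := by ring
  have g1 := ENNReal.ofReal_le_ofReal f1
  have g2 := ENNReal.ofReal_le_ofReal f2
  have e1 := (sumA hT hN ha A hRA).trans g1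
  have e2 := (sumC hT hN ha A hRA).trans g1
  have e3 := (sumB hT hN ha A hRA).trans g1
  have e4 := (sumB hT hN ha (2 * N) hRM).trans g2
  have e5 := (sumC hT hN ha (2 * N) hRM).trans g2
  have hx0 : 0 ≤ (A : ℝ) ^ (5 / 2 : ℝ) / (N : ℝ) ^ 2 * √(∑' k, sq a k) * tail A a := by positivity
  have hy0 : 0 ≤ (N : ℝ) ^ (5 / 2 : ℝ) / (M : ℝ) ^ 2 * √(∑' k, sq a k) * tail A a := by positivity
  refine (fin3 _ _ hx0 hy0 _ _ _ _ _ e1 e2 e3 e4 e5).trans (le_of_eq ?_)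
  congr 1
  ring

end Pool.Agent.U535.EW.REG
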